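import Pool.Agent.Y474.Z17.Odd

/-!
Z17G-F2: the parity of the number of the remaining representations, two inert primes.
-/

set_option autoImplicit false

namespace Pool.Agent.Y474.Z17

open Finset
open Pool.Agent.Z700 (pr Yd lres)
open Pool.Agent.Y17.N (Sp eQ)
open Pool.Agent.Y17.G

/-! ### primes and symbols -/

lemma cl_prime {A : Finset ℕ} (hA : Cl A) {p : ℕ} (hp : p ∈ A) : p.Prime := by
  rcases hA.1 p hp with h | h
  · exact h.1
  · exact h.1

lemma cl_mod {A : Finset ℕ} (hA : Cl A) {p : ℕ} (hp : p ∈ A) :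
    p % 8 = 1 ∨ p % 8 = 3 ∨ p % 8 = 5 := by
  rcases hA.1 p hp with h | h
  · exact Or.inl h.2.1
  · exact Or.inr h.2.1

lemma cl_odd {A : Finset ℕ} (hA : Cl A) {p : ℕ} (hp : p ∈ A) : Odd p := by
  rw [Nat.odd_iff]
  have := cl_mod hA hp
  omega

lemma cl_seven {A : Finset ℕ} (hA : Cl A) {p : ℕ} (hp : p ∈ A) : (p : ZMod 7) ≠ 0 := by
  have h1 : (p : ZMod 7) = ((p % 7 : ℕ) : ZMod 7) := by rw [ZMod.natCast_mod]
  rw [h1]
  rcases hA.1 p hp with h | h
  · rcases h.2.2 with h | h | h <;> rw [h] <;> decide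
  · rcases h.2.2 with h | h | h <;> rw [h] <;> decide

lemma mem_sp {A : Finset ℕ} {p : ℕ} : p ∈ sp A ↔ p ∈ A ∧ p % 8 = 1 := Finset.mem_filter

lemma mem_inn {A : Finset ℕ} {p : ℕ} : p ∈ inn A ↔ p ∈ A ∧ ¬ p % 8 = 1 := Finset.mem_filter

lemma sp_sub (A : Finset ℕ) : sp A ⊆ A := Finset.filter_subset _ _

lemma inn_sub (A : Finset ℕ) : inn A ⊆ A := Finset.filter_subset _ _

lemma sp_inn {A : Finset ℕ} {p : ℕ} (h1 : p ∈ sp A) (h2 : p ∈ inn A) : False :=
  (mem_inn.1 h2).2 (mem_sp.1 h1).2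

lemma sp_Sp {A : Finset ℕ} (hA : Cl A) {p : ℕ} (hp : p ∈ sp A) : Sp p := by
  obtain ⟨h1, h2⟩ := mem_sp.1 hp
  rcases hA.1 p h1 with h | h
  · exact h
  · have := h.2.1
    omega

lemma sp_odd {p : ℕ} (h : Sp p) : Odd p := by
  rw [Nat.odd_iff]
  have := h.2.1
  omega

lemma sp_neg {p : ℕ} (h : Sp p) (y : ℤ) : jacobiSym (-y) p = jacobiSym y p := by
  rw [jacobiSym.neg _ (sp_odd h), ZMod.χ₄_nat_one_mod_four (by have := h.2.1; omega), one_mul]

lemma sp_two {p : ℕ} (h : Sp p) : jacobiSym 2 p = 1 := by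
  rw [jacobiSym.at_two (sp_odd h), ZMod.χ₈_nat_eq_if_mod_eight]
  have h1 := h.2.1
  have h2 : ¬ p % 2 = 0 := by omega
  rw [if_neg h2, if_pos (Or.inl h1)]

lemma sp_seven {p : ℕ} (h : Sp p) : jacobiSym 7 p = 1 := by
  have h1 : jacobiSym ((p : ℕ) : ℤ) 7 = jacobiSym ((7 : ℕ) : ℤ) p :=
    jacobiSym.quadratic_reciprocity_one_mod_four (a := p) (b := 7) (by have := h.2.1; omega)
      (by decide)
  have h2 : jacobiSym ((p : ℕ) : ℤ) 7 = 1 := by
    rw [jacobiSym.mod_left]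
    have h3 : ((p : ℤ) % ((7 : ℕ) : ℤ)) = ((p % 7 : ℕ) : ℤ) := by push_cast; rfl
    rw [h3]
    rcases h.2.2 with h | h | h <;> rw [h] <;> norm_num
  rw [h2] at h1
  exact h1.symm

lemma sp_three {p : ℕ} (h : Sp p) : jacobiSym 3 p * jacobiSym 3 p = 1 := by
  have h1 : (3 : ℤ).gcd p = 1 := by
    have h2 : Nat.gcd 3 p = 1 := (Nat.coprime_primes (by norm_num) h.1).2 (by
      rintro rfl
      have := h.2.1
      omega)
    exact h2
  rcases jacobiSym.eq_one_or_neg_one h1 with h2 | h2 <;> rw [h2] <;> norm_num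

lemma sym1 {p : ℕ} (h : Sp p) {δ : ℤ} (hδ : δ = 2 ∨ δ = 14) (t : ℤ) :
    jacobiSym (-7 * δ * t) p = jacobiSym t p := by
  rcases hδ with rfl | rfl
  · have e : (-7 * 2 * t : ℤ) = -(7 * (2 * t)) := by ring
    rw [e, sp_neg h, jacobiSym.mul_left, jacobiSym.mul_left, sp_seven h, sp_two h]
    ring
  · have e : (-7 * 14 * t : ℤ) = -(7 * (2 * (7 * t))) := by ring
    rw [e, sp_neg h, jacobiSym.mul_left, jacobiSym.mul_left, jacobiSym.mul_left, sp_seven h,
      sp_two h]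
    ring

lemma sym2 {p : ℕ} (h : Sp p) {δ : ℤ} (hδ : δ = 2 ∨ δ = 14) (t : ℤ) :
    jacobiSym (7 * δ * (((9 : ℕ) : ℤ) * t)) p = jacobiSym t p := by
  have h3 := sp_three h
  rcases hδ with rfl | rfl
  · have e : (7 * 2 * (((9 : ℕ) : ℤ) * t) : ℤ) = 7 * (2 * (3 * (3 * t))) := by push_cast; ring
    rw [e, jacobiSym.mul_left, jacobiSym.mul_left, jacobiSym.mul_left, jacobiSym.mul_left,
      sp_seven h, sp_two h]
    linear_combination (jacobiSym t p) * h3
  · have e : (7 * 14 * (((9 : ℕ) : ℤ) * t) : ℤ) = 7 * (2 * (7 * (3 * (3 * t)))) := by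
      push_cast; ring
    rw [e, jacobiSym.mul_left, jacobiSym.mul_left, jacobiSym.mul_left, jacobiSym.mul_left,
      jacobiSym.mul_left, sp_seven h, sp_two h]
    linear_combination (jacobiSym t p) * h3

lemma jac_pm {y : ℤ} {p : ℕ} (hp : p.Prime) (h : ¬ (p : ℤ) ∣ y) :
    jacobiSym y p = 1 ∨ jacobiSym y p = -1 := by
  apply jacobiSym.eq_one_or_neg_one
  have h1 : IsCoprime (p : ℤ) y := (Nat.prime_iff_prime_int.1 hp).coprime_iff_not_dvd.2 h
  exact Int.isCoprime_iff_gcd_eq_one.1 h1.symm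

lemma jac_pr (J : Finset ℕ) (r : ℕ) :
    jacobiSym ((pr J : ℕ) : ℤ) r = ∏ p ∈ J, jacobiSym (p : ℤ) r := by
  classical
  induction J using Finset.induction_on with
  | empty => simp [pr, jacobiSym.one_left]
  | insert p J hp ih =>
    have h1 : pr (insert p J) = p * pr J := by rw [pr, pr, Finset.prod_insert hp]
    rw [h1, Nat.cast_mul, jacobiSym.mul_left, ih, Finset.prod_insert hp]

instance : Fact (Nat.Prime 7) := ⟨by norm_num⟩

lemma chi7 : ∀ c z : ZMod 7, c ≠ 0 → z ^ 2 = c ^ 2 →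
    (quadraticChar (ZMod 7) z = 1 ∨ quadraticChar (ZMod 7) z = -1) ∧
    (z = c ↔ quadraticChar (ZMod 7) z = quadraticChar (ZMod 7) c) := by
  decide

lemma jac7 (a : ℤ) : jacobiSym a 7 = quadraticChar (ZMod 7) (a : ZMod 7) := by
  rw [← jacobiSym.legendreSym.to_jacobiSym]
  rfl

/-! ### the symbol of a set of flips -/

/-- the symbol of the change by the flips in `T` -/
def sg (A T : Finset ℕ) (p : ℕ) : ℤ :=
  if p ∈ T then jacobiSym ((pr (A \ T) : ℕ) : ℤ) p else jacobiSym ((pr T : ℕ) : ℤ) p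

lemma sg_compl {A T : Finset ℕ} (hT : T ⊆ A) {p : ℕ} (hp : p ∈ A) :
    sg A (A \ T) p = sg A T p := by
  unfold sg
  rw [Finset.sdiff_sdiff_eq_self hT]
  by_cases h : p ∈ T
  · rw [if_pos h, if_neg (fun h1 => (Finset.mem_sdiff.1 h1).2 h)]
  · rw [if_neg h, if_pos (Finset.mem_sdiff.2 ⟨hp, h⟩)]

section

variable {A : Finset ℕ}

lemma fl_sub (s s' : ℤ × ℤ) : Fl A s s' ⊆ A := Finset.filter_subset _ _

lemma fl_mem {s s' : ℤ × ℤ} {l : ℕ} (hl : l ∈ A) :
    l ∈ Fl A s s' ↔ (l : ℤ) ∣ s.1 * s'.2 + s'.1 * s.2 := by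
  rw [Fl, Finset.mem_filter]
  exact ⟨fun h => h.2, fun h => ⟨hl, h⟩⟩

lemma fl_symm (s s' : ℤ × ℤ) : Fl A s s' = Fl A s' s := by
  unfold Fl
  refine Finset.filter_congr fun l _ => ?_
  rw [add_comm]

variable (hs : S_SYM) (hA : MA 9 A)

include hs hA

lemma rel {s s' : ℤ × ℤ} (h : s ∈ Sol 9 A) (h' : s' ∈ Sol 9 A) {p : ℕ} (hp : p ∈ sp A) :
    jacobiSym (s.2 * s'.2) p = sg A (Fl A s s') p := by
  obtain ⟨-, -, δ, hδ, h1, h2, -⟩ := hs 9 A hA s h s' h'
  have hpA := sp_sub A hp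
  have hSp := sp_Sp hA.1 hp
  unfold sg
  by_cases hF : p ∈ Fl A s s'
  · rw [if_pos hF, h2 p hF, sym2 hSp hδ]
  · rw [if_neg hF, h1 p hpA hF, sym1 hSp hδ]

lemma jac_s {s : ℤ × ℤ} (h : s ∈ Sol 9 A) {p : ℕ} (hp : p ∈ A) :
    jacobiSym s.2 p = 1 ∨ jacobiSym s.2 p = -1 :=
  jac_pm (cl_prime hA.1 hp) ((hs 9 A hA s h s h).1 p hp).1

lemma sg_one {s s' : ℤ × ℤ} (h : s ∈ Sol 9 A) (h' : s' ∈ Sol 9 A) {p : ℕ} (hp : p ∈ sp A) :
    sg A (Fl A s s') p = 1 ↔ jacobiSym s.2 p = jacobiSym s'.2 p := by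
  rw [← rel hs hA h h' hp, jacobiSym.mul_left]
  rcases jac_s hs hA h (sp_sub A hp) with h1 | h1 <;>
    rcases jac_s hs hA h' (sp_sub A hp) with h2 | h2 <;> rw [h1, h2] <;> norm_num

lemma nfl {s s' : ℤ × ℤ} (h : s ∈ Sol 9 A) (h' : s' ∈ Sol 9 A) {l : ℕ} (hl : l ∈ A) :
    l ∉ Fl A s s' ↔ (l : ℤ) ∣ s.1 * s'.2 - s'.1 * s.2 :=
  ((hs 9 A hA s h s' h').1 l hl).2.2

lemma fl_self {s : ℤ × ℤ} (h : s ∈ Sol 9 A) : Fl A s s = ∅ := by
  rw [Finset.eq_empty_iff_forall_notMem]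
  intro l hl
  refine (nfl hs hA h h (fl_sub s s hl)).2 ?_ hl
  simp

lemma uniq (hu : S_UNI) {s s' s'' : ℤ × ℤ} (h : s ∈ Sol 9 A) (h' : s' ∈ Sol 9 A)
    (h'' : s'' ∈ Sol 9 A) (he : Fl A s s' = Fl A s s'') : s' = s'' := by
  refine hu 9 A hA s' h' s'' h'' fun l hl => ?_
  have hpp := Nat.prime_iff_prime_int.1 (cl_prime hA.1 hl)
  have hn := ((hs 9 A hA s h s h).1 l hl).1
  have h3 : (l : ℤ) ∣ s.2 * (s'.1 * s''.2 - s''.1 * s'.2) := by
    by_cases hF : l ∈ Fl A s s'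
    · obtain ⟨k, hk⟩ := (fl_mem hl).1 hF
      rw [he] at hF
      obtain ⟨j, hj⟩ := (fl_mem hl).1 hF
      exact ⟨k * s''.2 - j * s'.2, by linear_combination s''.2 * hk - s'.2 * hj⟩
    · obtain ⟨k, hk⟩ := (nfl hs hA h h' hl).1 hF
      rw [he] at hF
      obtain ⟨j, hj⟩ := (nfl hs hA h h'' hl).1 hF
      exact ⟨-k * s''.2 + j * s'.2, by linear_combination -s''.2 * hk + s'.2 * hj⟩
  exact (hpp.dvd_or_dvd h3).resolve_left hn

lemma compl (ht : S_TOT) {s s' s'' : ℤ × ℤ} (h : s ∈ Sol 9 A) (h' : s' ∈ Sol 9 A)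
    (h'' : s'' ∈ Sol 9 A) (he : Fl A s s'' = A \ Fl A s s') :
    jacobiSym (s'.1 * s''.1) 7 = -1 := by
  refine ht A hA s' h' s'' h'' fun l hl => ?_
  have hpp := Nat.prime_iff_prime_int.1 (cl_prime hA.1 hl)
  have hn := ((hs 9 A hA s h s h).1 l hl).1
  have h3 : (l : ℤ) ∣ s.2 * (s'.1 * s''.2 + s''.1 * s'.2) := by
    by_cases hF : l ∈ Fl A s s'
    · have hG : l ∉ Fl A s s'' := by
        rw [he]
        exact fun h0 => (Finset.mem_sdiff.1 h0).2 hF
      obtain ⟨k, hk⟩ := (fl_mem hl).1 hF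
      obtain ⟨j, hj⟩ := (nfl hs hA h h'' hl).1 hG
      exact ⟨k * s''.2 - j * s'.2, by linear_combination s''.2 * hk - s'.2 * hj⟩
    · have hG : l ∈ Fl A s s'' := by
        rw [he]
        exact Finset.mem_sdiff.2 ⟨hl, hF⟩
      obtain ⟨k, hk⟩ := (nfl hs hA h h' hl).1 hF
      obtain ⟨j, hj⟩ := (fl_mem hl).1 hG
      exact ⟨-k * s''.2 + j * s'.2, by linear_combination -s''.2 * hk + s'.2 * hj⟩
  exact (hpp.dvd_or_dvd h3).resolve_left hn

lemma flip (hf : S_FLIP) {s : ℤ × ℤ} (h : s ∈ Sol 9 A) {T : Finset ℕ} (hT : T ⊆ A)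
    (he : Even (inn T).card) : ∃ s' ∈ Sol 9 A, Fl A s s' = T := by
  obtain ⟨s', h', h1, h2⟩ := hf 9 A hA s h T hT he
  refine ⟨s', h', ?_⟩
  ext l
  constructor
  · intro hl
    by_contra hlT
    exact (nfl hs hA h h' (fl_sub s s' hl)).2 (h2 l (fl_sub s s' hl) hlT) hl
  · intro hl
    exact (fl_mem (hT hl)).2 (h1 l hl)

end

/-! ### the criterion -/

lemma jac_even (i : ℕ) (f : ℕ → ℤ) (K : Finset ℕ)
    (h : ∀ k ∈ K, (jacobiSym (k : ℤ) i = 1 ∧ f k = 0) ∨ (jacobiSym (k : ℤ) i = -1 ∧ f k = 1)) :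
    (jacobiSym ((pr K : ℕ) : ℤ) i = 1 ∧ Even (∑ k ∈ K, f k)) ∨
      (jacobiSym ((pr K : ℕ) : ℤ) i = -1 ∧ ¬ Even (∑ k ∈ K, f k)) := by
  classical
  rw [jac_pr]
  induction K using Finset.induction_on with
  | empty =>
    left
    simp
  | insert q K hq ih =>
    have h1 := ih fun k hk => h k (Finset.mem_insert_of_mem hk)
    rw [Finset.prod_insert hq, Finset.sum_insert hq]
    rcases h q (Finset.mem_insert_self q K) with ⟨e3, e4⟩ | ⟨e3, e4⟩
    · rw [e3, e4, zero_add, one_mul]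
      exact h1
    · rw [e3, e4]
      rcases h1 with ⟨h2, h3⟩ | ⟨h2, h3⟩
      · right
        rw [h2]
        refine ⟨by norm_num, ?_⟩
        rw [Int.even_add]
        intro h4
        exact absurd (h4.2 h3) (by decide)
      · left
        rw [h2]
        refine ⟨by norm_num, ?_⟩
        rw [Int.even_add]
        constructor
        · intro h4
          exact absurd h4 (by decide)
        · intro h4
          exact absurd h4 h3

lemma jac_one {i : ℕ} {f : ℕ → ℤ} {K : Finset ℕ}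
    (h : ∀ k ∈ K, (jacobiSym (k : ℤ) i = 1 ∧ f k = 0) ∨ (jacobiSym (k : ℤ) i = -1 ∧ f k = 1)) :
    jacobiSym ((pr K : ℕ) : ℤ) i = 1 ↔ Even (∑ k ∈ K, f k) := by
  rcases jac_even i f K h with ⟨h1, h2⟩ | ⟨h1, h2⟩
  · exact ⟨fun _ => h2, fun _ => h1⟩
  · constructor
    · intro h3
      rw [h1] at h3
      norm_num at h3
    · intro h3
      exact absurd h3 h2

section

variable {A : Finset ℕ}

lemma A_eq (A : Finset ℕ) : A = sp A ∪ inn A := by
  ext p
  rw [Finset.mem_union, mem_sp, mem_inn]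
  tauto

lemma jac_ne {A : Finset ℕ} (hA : Cl A) {k i : ℕ} (hk : k ∈ A) (hi : i ∈ A) (hne : k ≠ i) :
    jacobiSym (k : ℤ) i = 1 ∨ jacobiSym (k : ℤ) i = -1 := by
  apply jac_pm (cl_prime hA hi)
  intro h
  have h1 : i ∣ k := by exact_mod_cast h
  exact hne ((Nat.prime_dvd_prime_iff_eq (cl_prime hA hi) (cl_prime hA hk)).1 h1).symm

lemma lres_of {A : Finset ℕ} (hA : Cl A) {k i : ℕ} (hk : k ∈ sp A) (hi : i ∈ sp A)
    (hne : k ≠ i) : (jacobiSym (k : ℤ) i = 1 ∧ lres i k = 0) ∨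
      (jacobiSym (k : ℤ) i = -1 ∧ lres i k = 1) := by
  have hrec : jacobiSym (i : ℤ) k = jacobiSym (k : ℤ) i :=
    jacobiSym.quadratic_reciprocity_one_mod_four (by have := (mem_sp.1 hi).2; omega)
      (sp_odd (sp_Sp hA hk))
  rcases jac_ne hA (sp_sub A hk) (sp_sub A hi) hne with h | h
  · left
    refine ⟨h, ?_⟩
    unfold lres
    rw [hrec, h]
    simp
  · right
    refine ⟨h, ?_⟩
    unfold lres
    rw [hrec, h]
    simp

lemma eQ_of {A : Finset ℕ} (hA : Cl A) {k i : ℕ} (hk : k ∈ inn A) (hi : i ∈ sp A) :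
    (jacobiSym (k : ℤ) i = 1 ∧ eQ k i = 0) ∨ (jacobiSym (k : ℤ) i = -1 ∧ eQ k i = 1) := by
  have hne : k ≠ i := fun h => sp_inn hi (h ▸ hk)
  rcases jac_ne hA (inn_sub A hk) (sp_sub A hi) hne with h | h
  · left
    refine ⟨h, ?_⟩
    unfold eQ
    rw [h]
    simp
  · right
    refine ⟨h, ?_⟩
    unfold eQ
    rw [h]
    simp

/-- the criterion -/
lemma crit (hA : Cl A) : Odd (Yd lres (ei A) (sp A)) ↔
    ∀ I ⊆ sp A, (∀ i ∈ sp A, sg A I i = 1) → I = ∅ := by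
  classical
  rw [odd_sub]
  have key1 : ∀ I ⊆ sp A, ∀ i ∈ I, (sg A I i = 1 ↔
      Even ((∑ k ∈ sp A \ I, lres i k) + ei A i)) := by
    intro I hI i hi
    unfold sg
    rw [if_pos hi]
    have h1 : A \ I = (sp A \ I) ∪ inn A := by
      ext k
      rw [Finset.mem_sdiff, Finset.mem_union, Finset.mem_sdiff]
      constructor
      · rintro ⟨h1, h2⟩
        by_cases h3 : k % 8 = 1
        · exact Or.inl ⟨mem_sp.2 ⟨h1, h3⟩, h2⟩
        · exact Or.inr (mem_inn.2 ⟨h1, h3⟩)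
      · rintro (⟨h1, h2⟩ | h)
        · exact ⟨sp_sub A h1, h2⟩
        · exact ⟨inn_sub A h, fun h' => sp_inn (hI h') h⟩
    have hd : Disjoint (sp A \ I) (inn A) := by
      rw [Finset.disjoint_left]
      exact fun k h2 h3 => sp_inn (Finset.mem_sdiff.1 h2).1 h3
    have h2 := jac_one (i := i) (K := A \ I)
      (f := fun k => if k ∈ inn A then eQ k i else lres i k) (by
        intro k hk
        rw [h1, Finset.mem_union] at hk
        rcases hk with hk | hk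
        · have hk1 := Finset.mem_sdiff.1 hk
          rw [if_neg fun h => sp_inn hk1.1 h]
          exact lres_of hA hk1.1 (hI hi) (fun h => hk1.2 (h ▸ hi))
        · rw [if_pos hk]
          exact eQ_of hA hk (hI hi))
    rw [h2, h1, Finset.sum_union hd]
    have e1 : ∑ k ∈ sp A \ I, (if k ∈ inn A then eQ k i else lres i k) =
        ∑ k ∈ sp A \ I, lres i k :=
      Finset.sum_congr rfl fun k hk => if_neg fun h => sp_inn (Finset.mem_sdiff.1 hk).1 h
    have e2 : ∑ k ∈ inn A, (if k ∈ inn A then eQ k i else lres i k) = ei A i :=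
      Finset.sum_congr rfl fun k hk => if_pos hk
    rw [e1, e2]
  have key2 : ∀ I ⊆ sp A, ∀ i ∈ sp A \ I, (sg A I i = 1 ↔ Even (∑ k ∈ I, lres i k)) := by
    intro I hI i hi
    have hi1 := Finset.mem_sdiff.1 hi
    unfold sg
    rw [if_neg hi1.2]
    exact jac_one fun k hk => lres_of hA (hI hk) hi1.1 fun h => hi1.2 (h ▸ hk)
  constructor
  · intro h I hI h1
    exact h I hI (fun i hi => (key1 I hI i hi).1 (h1 i (hI hi)))
      fun i hi => (key2 I hI i hi).1 (h1 i (Finset.mem_sdiff.1 hi).1)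
  · intro h I hI h1 h2
    refine h I hI fun i hi => ?_
    by_cases hiI : i ∈ I
    · exact (key1 I hI i hiI).2 (h1 i hiI)
    · exact (key2 I hI i (Finset.mem_sdiff.2 ⟨hi, hiI⟩)).2 (h2 i (Finset.mem_sdiff.2 ⟨hi, hiI⟩))

end

/-! ### the remaining representations -/

open Classical in
/-- the remaining representations -/
noncomputable def FS (ρ : ZMod 7) (A : Finset ℕ) : Finset (ℤ × ℤ) :=
  ((Ioo (-(9 * (pr A : ℤ))) (9 * (pr A : ℤ))) ×ˢ (Ioo (-(9 * (pr A : ℤ))) (9 * (pr A : ℤ)))).filter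
    fun q => q ∈ Sol 9 A ∧ ((q.1 : ZMod 7) = ρ ∧ ∀ p ∈ sp A, jacobiSym q.2 p = 1)

lemma sol_eq {A : Finset ℕ} {q : ℤ × ℤ} (hq : q ∈ Sol 9 A) :
    9 * (pr A : ℤ) = q.1 ^ 2 + 14 * q.2 ^ 2 := by
  have h := hq.1
  push_cast at h
  exact h

lemma sol_ne {A : Finset ℕ} {q : ℤ × ℤ} (hq : q ∈ Sol 9 A) : q.2 ≠ 0 := by
  intro h
  have h1 := hq.2.2.2
  rw [h, zero_sub] at h1
  exact hq.2.2.1 ((dvd_neg).1 h1)

lemma sol_bd {A : Finset ℕ} {q : ℤ × ℤ} (hq : q ∈ Sol 9 A) :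
    q.1 ^ 2 < 9 * (pr A : ℤ) ∧ q.2 ^ 2 < 9 * (pr A : ℤ) := by
  have h1 := sol_eq hq
  have h2 := sol_ne hq
  have h3 : 0 < q.2 ^ 2 := by positivity
  have h4 : 0 ≤ q.1 ^ 2 := by positivity
  constructor <;> linarith

lemma mem_Ioo_of_sq {b n : ℤ} (h : b ^ 2 < n) : b ∈ Ioo (-n) n := by
  rw [Finset.mem_Ioo]
  have h1 := Int.le_self_sq b
  have h2 := Int.le_self_sq (-b)
  rw [neg_sq] at h2
  constructor <;> linarith

lemma mem_FS {ρ : ZMod 7} {A : Finset ℕ} {q : ℤ × ℤ} :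
    q ∈ FS ρ A ↔ q ∈ Sol 9 A ∧ ((q.1 : ZMod 7) = ρ ∧ ∀ p ∈ sp A, jacobiSym q.2 p = 1) := by
  classical
  rw [FS, Finset.mem_filter, Finset.mem_product]
  constructor
  · exact fun h => h.2
  · exact fun h => ⟨⟨mem_Ioo_of_sq (sol_bd h.1).1, mem_Ioo_of_sq (sol_bd h.1).2⟩, h⟩

lemma fs_inj {A : Finset ℕ} {q q' : ℤ × ℤ} (hq : q ∈ Sol 9 A) (hq' : q' ∈ Sol 9 A)
    (h : q.1 = q'.1) : q = q' := by
  have h1 := sol_eq hq
  have h2 := sol_eq hq'
  rw [← h] at h2
  have h3 : (q.2 - q'.2) * (q.2 + q'.2) = 0 := by nlinarith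
  rcases mul_eq_zero.1 h3 with h4 | h4
  · exact Prod.ext h (by linarith)
  · exfalso
    have h5 := hq.2.2.2
    have h6 := hq'.2.2.2
    rw [← h] at h6
    have h7 : q'.2 = -q.2 := by linarith
    rw [h7] at h6
    apply hq.2.2.1
    obtain ⟨k, hk⟩ := h5
    obtain ⟨l, hl⟩ := h6
    exact ⟨q.1 + k + l, by linarith⟩

lemma mem_flt {α : Type} {p : α → Prop} (inst : DecidablePred p) {s : Finset α} {a : α} :
    a ∈ @Finset.filter α p inst s ↔ a ∈ s ∧ p a := Finset.mem_filter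

lemma mem_FixR {ρ : ZMod 7} {A : Finset ℕ} {b : ℤ} : b ∈ FixR ρ A ↔
    b ∈ Ioo (-(9 * (pr A : ℤ))) (9 * (pr A : ℤ)) ∧ (b % 4 = 1 ∧ (b : ZMod 7) = ρ ∧
      ¬ (3 : ℤ) ∣ b ∧ ∃ y ∈ range (9 * pr A), 9 * (pr A : ℤ) = b ^ 2 + 14 * (y : ℤ) ^ 2 ∧
        Cond y A) :=
  mem_flt _

lemma mem_i3 {A : Finset ℕ} {p : ℕ} : p ∈ i3 A ↔ p ∈ A ∧ p % 8 = 3 := Finset.mem_filter

lemma mem_i5 {A : Finset ℕ} {p : ℕ} : p ∈ i5 A ↔ p ∈ A ∧ p % 8 = 5 := Finset.mem_filter

/-- the condition at the inert primes follows from the product formula -/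
lemma inn_eq (hs : S_SYM) {A : Finset ℕ} (hA : MA 9 A) (h2 : (inn A).card = 2) (hp : S_PRO)
    {q : ℤ × ℤ} (hq : q ∈ Sol 9 A) (h1 : ∀ p ∈ sp A, jacobiSym q.2 p = 1)
    {a a' : ℕ} (ha : a ∈ inn A) (ha' : a' ∈ inn A) : jacobiSym q.2 a = jacobiSym q.2 a' := by
  classical
  by_cases haa : a = a'
  · rw [haa]
  have hin : inn A = {a, a'} := by
    symm
    refine Finset.eq_of_subset_of_card_le ?_ ?_
    · intro x hx
      rw [Finset.mem_insert, Finset.mem_singleton] at hx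
      rcases hx with rfl | rfl
      · exact ha
      · exact ha'
    · rw [h2, Finset.card_pair haa]
  have hprod := hp A hA q hq
  have hdis : Disjoint (sp A) (inn A) := by
    rw [Finset.disjoint_left]
    exact fun k h2 h3 => sp_inn h2 h3
  have e1 : ∏ p ∈ A, jacobiSym q.2 p =
      (∏ p ∈ sp A, jacobiSym q.2 p) * ∏ p ∈ inn A, jacobiSym q.2 p := by
    conv_lhs => rw [A_eq A]
    rw [Finset.prod_union hdis]
  rw [e1, Finset.prod_eq_one h1, one_mul, hin, Finset.prod_pair haa] at hprod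
  rcases jac_s hs hA hq (inn_sub A ha) with h | h <;>
    rcases jac_s hs hA hq (inn_sub A ha') with h' | h' <;>
    rw [h, h'] at hprod ⊢ <;> norm_num at hprod

lemma jac_abs {y : ℤ} {p : ℕ} (hp : Odd p) :
    jacobiSym (y.natAbs : ℤ) p = (if 0 ≤ y then 1 else ZMod.χ₄ p) * jacobiSym y p := by
  by_cases h7 : 0 ≤ y
  · rw [Int.natAbs_of_nonneg h7, if_pos h7, one_mul]
  · rw [if_neg h7, Int.ofNat_natAbs_of_nonpos (by omega), jacobiSym.neg _ hp]

lemma jac_abs_sp {y : ℤ} {p : ℕ} (h : Sp p) : jacobiSym (y.natAbs : ℤ) p = jacobiSym y p := by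
  rw [jac_abs (sp_odd h), ZMod.χ₄_nat_one_mod_four (by have := h.2.1; omega)]
  split_ifs <;> rw [one_mul]

lemma fix_card (hs : S_SYM) {ρ : ZMod 7} {A : Finset ℕ} (hA : MA 9 A) (h2 : (inn A).card = 2)
    (hp : S_PRO) : (FixR ρ A).card = (FS ρ A).card := by
  classical
  have hCl := hA.1
  have himg : FixR ρ A = (FS ρ A).image Prod.fst := by
    ext b
    rw [Finset.mem_image, mem_FixR]
    constructor
    · rintro ⟨hb, h1, h2, h3, y, hy, h4, h5, -⟩
      have h6 : (3 : ℤ) ∣ (b - y) * (b + y) :=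
        ⟨3 * (pr A : ℤ) - 5 * (y : ℤ) ^ 2, by linear_combination -h4⟩
      have hpr3 : Prime (3 : ℤ) := Int.prime_three
      rcases hpr3.dvd_or_dvd h6 with h7 | h7
      · refine ⟨(b, (y : ℤ)), ?_, rfl⟩
        rw [mem_FS]
        refine ⟨⟨by push_cast; exact h4, h1, h3, ?_⟩, h2, h5⟩
        have := (dvd_neg).2 h7
        rwa [neg_sub] at this
      · refine ⟨(b, -(y : ℤ)), ?_, rfl⟩
        rw [mem_FS]
        refine ⟨⟨by push_cast; simpa using h4, h1, h3, ?_⟩, h2, fun p hp => ?_⟩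
        · have := (dvd_neg).2 h7
          have e : -(b + (y : ℤ)) = -(y : ℤ) - b := by ring
          rwa [e] at this
        · show jacobiSym (-(y : ℤ)) p = 1
          rw [sp_neg (sp_Sp hCl hp)]
          exact h5 p hp
    · rintro ⟨q, hq, rfl⟩
      rw [mem_FS] at hq
      obtain ⟨hq, h3, h5⟩ := hq
      have hin : ∀ a ∈ inn A, ∀ a' ∈ inn A, a % 8 = a' % 8 →
          jacobiSym (q.2.natAbs : ℤ) a = jacobiSym (q.2.natAbs : ℤ) a' := by
        intro a ha a' ha' haa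
        rw [jac_abs (cl_odd hCl (inn_sub A ha)), jac_abs (cl_odd hCl (inn_sub A ha')),
          inn_eq hs hA h2 hp hq h5 ha ha']
        have h4 : ZMod.χ₄ (a : ZMod 4) = ZMod.χ₄ (a' : ZMod 4) := by
          have h6 : (a : ZMod 4) = (a' : ZMod 4) := by
            rw [ZMod.natCast_eq_natCast_iff]
            show a % 4 = a' % 4
            omega
          rw [h6]
        rw [h4]
      refine ⟨mem_Ioo_of_sq (sol_bd hq).1, hq.2.1, h3, hq.2.2.1, q.2.natAbs, ?_, ?_, ?_, ?_, ?_⟩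
      · rw [Finset.mem_range]
        have h3 := Finset.mem_Ioo.1 (mem_Ioo_of_sq (sol_bd hq).2)
        omega
      · rw [Int.natCast_natAbs, sq_abs]
        exact sol_eq hq
      · intro p hp
        show jacobiSym (q.2.natAbs : ℤ) p = 1
        rw [jac_abs_sp (sp_Sp hCl hp)]
        exact h5 p hp
      · intro a ha a' ha'
        obtain ⟨u1, u2⟩ := mem_i3.1 ha
        obtain ⟨u3, u4⟩ := mem_i3.1 ha'
        exact hin a (mem_inn.2 ⟨u1, by omega⟩) a' (mem_inn.2 ⟨u3, by omega⟩) (by omega)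
      · intro a ha a' ha'
        obtain ⟨u1, u2⟩ := mem_i5.1 ha
        obtain ⟨u3, u4⟩ := mem_i5.1 ha'
        exact hin a (mem_inn.2 ⟨u1, by omega⟩) a' (mem_inn.2 ⟨u3, by omega⟩) (by omega)
  rw [himg, Finset.card_image_of_injOn]
  intro q hq q' hq' h
  exact fs_inj (mem_FS.1 hq).1 (mem_FS.1 hq').1 h

/-! ### the sign at `7` -/

lemma rho_ne {ρ : ZMod 7} {A : Finset ℕ} (hA : Cl A) (hρ : ρ ^ 2 = 2 * (pr A : ZMod 7)) :
    ρ ≠ 0 := by
  rintro rfl
  have h1 : (pr A : ZMod 7) ≠ 0 := by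
    rw [pr, Nat.cast_prod]
    exact Finset.prod_ne_zero_iff.2 fun p hp => cl_seven hA hp
  have h2 : (2 : ZMod 7) ≠ 0 := by decide
  rw [zero_pow two_ne_zero] at hρ
  exact (mul_ne_zero h2 h1) hρ.symm

lemma at7 {ρ : ZMod 7} {A : Finset ℕ} (hA : Cl A) (hρ : ρ ^ 2 = 2 * (pr A : ZMod 7))
    {q : ℤ × ℤ} (hq : q ∈ Sol 9 A) :
    (jacobiSym q.1 7 = 1 ∨ jacobiSym q.1 7 = -1) ∧
      ((q.1 : ZMod 7) = ρ ↔ jacobiSym q.1 7 = quadraticChar (ZMod 7) ρ) := by
  have h1 : ((q.1 : ℤ) : ZMod 7) ^ 2 = ρ ^ 2 := by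
    have h2 := congrArg (fun x : ℤ => (x : ZMod 7)) (sol_eq hq)
    simp only [Int.cast_mul, Int.cast_add, Int.cast_pow, Int.cast_natCast, Int.cast_ofNat] at h2
    have h3 : (14 : ZMod 7) = 0 := by decide
    have h4 : (9 : ZMod 7) = 2 := by decide
    rw [h3, zero_mul, add_zero, h4] at h2
    rw [hρ, h2]
  rw [jac7]
  exact chi7 _ _ (rho_ne hA hρ) h1

lemma rho_pm {ρ : ZMod 7} {A : Finset ℕ} (hA : Cl A) (hρ : ρ ^ 2 = 2 * (pr A : ZMod 7)) :
    quadraticChar (ZMod 7) ρ = 1 ∨ quadraticChar (ZMod 7) ρ = -1 :=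
  (chi7 _ _ (rho_ne hA hρ) rfl).1

/-! ### the parity -/

section

variable {A : Finset ℕ} {ρ : ZMod 7} (hs : S_SYM) (hu : S_UNI) (ht : S_TOT) (hf : S_FLIP)
  (hA : MA 9 A) (h2 : (inn A).card = 2) (hρ : ρ ^ 2 = 2 * (pr A : ZMod 7))

include hA h2

omit hA in
lemma inn_even {T : Finset ℕ} (hT : T ⊆ A) (he : Even (inn T).card) :
    inn T = ∅ ∨ inn T = inn A := by
  have hsub : inn T ⊆ inn A := by
    intro p hp
    obtain ⟨h1, h3⟩ := mem_inn.1 hp
    exact mem_inn.2 ⟨hT h1, h3⟩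
  rcases Finset.eq_empty_or_nonempty (inn T) with h | h
  · exact Or.inl h
  · right
    refine Finset.eq_of_subset_of_card_le hsub ?_
    have h3 := Finset.card_pos.2 h
    rw [h2]
    obtain ⟨k, hk⟩ := he
    omega

include hs hu ht hρ

lemma sig_inj (hI : ∀ I ⊆ sp A, (∀ i ∈ sp A, sg A I i = 1) → I = ∅)
    {s s' : ℤ × ℤ} (h : s ∈ Sol 9 A) (h' : s' ∈ Sol 9 A)
    (h1 : ∀ r ∈ sp A, jacobiSym s.2 r = jacobiSym s'.2 r)
    (h7 : jacobiSym s.1 7 = jacobiSym s'.1 7) : s = s' := by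
  classical
  have hT := fl_sub (A := A) s s'
  have hsg : ∀ i ∈ sp A, sg A (Fl A s s') i = 1 := fun i hi =>
    (sg_one hs hA h h' hi).2 (h1 i hi)
  rcases inn_even h2 hT (hs 9 A hA s h s' h').2.1 with h3 | h3
  · have h4 : Fl A s s' ⊆ sp A := by
      intro p hp
      by_contra hn
      have h5 : p ∈ inn (Fl A s s') := mem_inn.2 ⟨hp, fun h6 => hn (mem_sp.2 ⟨hT hp, h6⟩)⟩
      rw [h3] at h5
      exact Finset.notMem_empty _ h5
    have h5 := hI _ h4 hsg
    exact uniq hs hA hu h h h' (by rw [fl_self hs hA h, h5])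
  · exfalso
    have h4 : A \ Fl A s s' ⊆ sp A := by
      intro p hp
      obtain ⟨h5, h6⟩ := Finset.mem_sdiff.1 hp
      by_contra hn
      have h7 : p ∈ inn A := mem_inn.2 ⟨h5, fun h8 => hn (mem_sp.2 ⟨h5, h8⟩)⟩
      rw [← h3] at h7
      exact h6 (mem_inn.1 h7).1
    have h5 := hI _ h4 fun i hi => by rw [sg_compl hT (sp_sub A hi)]; exact hsg i hi
    have h6 : Fl A s s' = A := Finset.Subset.antisymm hT (Finset.sdiff_eq_empty_iff_subset.1 h5)
    have h8 := compl hs hA ht h h h' (by rw [fl_self hs hA h, h6, Finset.sdiff_empty])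
    rw [jacobiSym.mul_left, ← h7] at h8
    rcases (at7 hA.1 hρ h).1 with h9 | h9 <;> rw [h9] at h8 <;> norm_num at h8

include hf

lemma card_one (hI : ∀ I ⊆ sp A, (∀ i ∈ sp A, sg A I i = 1) → I = ∅)
    (hne : (Sol 9 A).Nonempty) : (FS ρ A).card = 1 := by
  classical
  obtain ⟨s0, hs0⟩ := hne
  obtain ⟨a, ha⟩ : (inn A).Nonempty := by
    rw [← Finset.card_pos, h2]
    norm_num
  have haS : a ∉ sp A := fun h => sp_inn h ha
  set S := insert a (sp A) with hS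
  have haS' : a ∈ S := Finset.mem_insert_self _ _
  have hspS : ∀ p ∈ sp A, p ∈ S := fun p hp => Finset.mem_insert_of_mem hp
  set T : Finset ℕ → Finset ℕ := fun B => (B ∩ sp A) ∪ (if a ∈ B then inn A else ∅) with hT
  have hTsub : ∀ B, T B ⊆ A := by
    intro B
    simp only [hT]
    refine Finset.union_subset ((Finset.inter_subset_right).trans (sp_sub A)) ?_
    split_ifs
    · exact inn_sub A
    · exact Finset.empty_subset _
  have hTsp : ∀ B, ∀ p ∈ sp A, (p ∈ T B ↔ p ∈ B) := by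
    intro B p hp
    simp only [hT]
    rw [Finset.mem_union, Finset.mem_inter]
    constructor
    · rintro (h | h)
      · exact h.1
      · exfalso
        split_ifs at h
        · exact sp_inn hp h
        · exact Finset.notMem_empty _ h
    · exact fun h => Or.inl ⟨h, hp⟩
  have hTinn : ∀ B, inn (T B) = if a ∈ B then inn A else ∅ := by
    intro B
    ext p
    rw [mem_inn]
    simp only [hT]
    rw [Finset.mem_union, Finset.mem_inter]
    constructor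
    · rintro ⟨h1 | h1, h3⟩
      · exact absurd (mem_sp.1 h1.2).2 h3
      · exact h1
    · intro h
      refine ⟨Or.inr h, ?_⟩
      split_ifs at h
      · exact (mem_inn.1 h).2
      · exact absurd h (Finset.notMem_empty _)
  have hTeven : ∀ B, Even (inn (T B)).card := by
    intro B
    rw [hTinn]
    split_ifs
    · rw [h2]
      exact even_two
    · simp
  have hTa : ∀ B, (a ∈ T B ↔ a ∈ B) := by
    intro B
    have h1 : a ∈ T B ↔ a ∈ inn (T B) := by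
      rw [mem_inn]
      exact ⟨fun h => ⟨h, (mem_inn.1 ha).2⟩, fun h => h.1⟩
    rw [h1, hTinn]
    split_ifs with h
    · exact ⟨fun _ => h, fun _ => ha⟩
    · exact ⟨fun h3 => absurd h3 (Finset.notMem_empty _), fun h3 => absurd h3 h⟩
  have hTinj : ∀ B ⊆ S, ∀ B' ⊆ S, T B = T B' → B ⊆ B' := by
    intro B hB B' hB' he p hp
    rcases Finset.mem_insert.1 (hB hp) with h | h
    · subst h
      rw [← hTa, ← he, hTa]
      exact hp
    · rw [← hTsp B' p h, ← he, hTsp B p h]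
      exact hp
  have hfl := fun B : Finset ℕ => flip hs hA hf hs0 (hTsub B) (hTeven B)
  choose φ hφ1 hφ2 using hfl
  set code : ℤ × ℤ → Finset ℕ := fun s =>
    S.filter fun p => (p = a ∧ jacobiSym s.1 7 = 1) ∨ (p ≠ a ∧ jacobiSym s.2 p = 1) with hcode
  have code_a : ∀ s, a ∈ code s ↔ jacobiSym s.1 7 = 1 := by
    intro s
    simp only [hcode]
    rw [Finset.mem_filter]
    constructor
    · rintro ⟨-, h | h⟩
      · exact h.2
      · exact absurd rfl h.1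
    · exact fun h => ⟨haS', Or.inl ⟨rfl, h⟩⟩
  have code_p : ∀ s, ∀ p ∈ sp A, (p ∈ code s ↔ jacobiSym s.2 p = 1) := by
    intro s p hp
    have hpa : p ≠ a := fun h => haS (h ▸ hp)
    simp only [hcode]
    rw [Finset.mem_filter]
    constructor
    · rintro ⟨-, h | h⟩
      · exact absurd h.1 hpa
      · exact h.2
    · exact fun h => ⟨hspS p hp, Or.inr ⟨hpa, h⟩⟩
  have hcinj : ∀ s ∈ Sol 9 A, ∀ s' ∈ Sol 9 A, code s = code s' → s = s' := by
    intro s h s' h' he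
    refine sig_inj hs hu ht hA h2 hρ hI h h' ?_ ?_
    · intro r hr
      have k1 := code_p s r hr
      have k2 := code_p s' r hr
      rw [he, k2] at k1
      rcases jac_s hs hA h (sp_sub A hr) with a1 | a1 <;>
        rcases jac_s hs hA h' (sp_sub A hr) with b | b
      · rw [a1, b]
      · exact absurd (k1.2 a1) (by rw [b]; norm_num)
      · exact absurd (k1.1 b) (by rw [a1]; norm_num)
      · rw [a1, b]
    · have k1 := code_a s
      have k2 := code_a s'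
      rw [he, k2] at k1
      rcases (at7 hA.1 hρ h).1 with a1 | a1 <;> rcases (at7 hA.1 hρ h').1 with b | b
      · rw [a1, b]
      · exact absurd (k1.2 a1) (by rw [b]; norm_num)
      · exact absurd (k1.1 b) (by rw [a1]; norm_num)
      · rw [a1, b]
  have hsurj : Set.SurjOn (fun B => code (φ B)) (S.powerset : Set (Finset ℕ))
      (S.powerset : Set (Finset ℕ)) := by
    refine Finset.surjOn_of_injOn_of_card_le _ ?_ ?_ le_rfl
    · intro B _
      exact Finset.mem_coe.2 (Finset.mem_powerset.2 (Finset.filter_subset _ _))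
    · intro B hB B' hB' he
      have hB1 := Finset.mem_powerset.1 (Finset.mem_coe.1 hB)
      have hB2 := Finset.mem_powerset.1 (Finset.mem_coe.1 hB')
      have h3 := hcinj _ (hφ1 B) _ (hφ1 B') he
      have h4 : T B = T B' := by rw [← hφ2 B, ← hφ2 B', h3]
      exact Finset.Subset.antisymm (hTinj B hB1 B' hB2 h4) (hTinj B' hB2 B hB1 h4.symm)
  set C0 : Finset ℕ := if quadraticChar (ZMod 7) ρ = 1 then S else sp A with hC0
  have hC0S : C0 ∈ (S.powerset : Set (Finset ℕ)) := by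
    refine Finset.mem_coe.2 (Finset.mem_powerset.2 ?_)
    rw [hC0]
    split_ifs
    · exact Finset.Subset.refl _
    · exact Finset.subset_insert _ _
  obtain ⟨B, hB, hBC⟩ := hsurj hC0S
  have hBC' : code (φ B) = C0 := hBC
  have hsol := hφ1 B
  have hmem : φ B ∈ FS ρ A := by
    rw [mem_FS]
    refine ⟨hsol, (at7 hA.1 hρ hsol).2.2 ?_, fun p hp => ?_⟩
    · have k1 := code_a (φ B)
      rw [hBC'] at k1
      rcases rho_pm hA.1 hρ with e | e
      · rw [e]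
        refine k1.1 ?_
        rw [hC0, if_pos e]
        exact haS'
      · rw [e]
        have : a ∉ C0 := by
          rw [hC0, if_neg (by rw [e]; norm_num)]
          exact haS
        exact (at7 hA.1 hρ hsol).1.resolve_left fun h => this (k1.2 h)
    · refine (code_p (φ B) p hp).1 ?_
      rw [hBC', hC0]
      split_ifs
      · exact hspS p hp
      · exact hp
  rw [Finset.card_eq_one]
  refine ⟨φ B, ?_⟩
  ext q
  rw [Finset.mem_singleton]
  constructor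
  · intro hq
    obtain ⟨h1, h3, h4⟩ := mem_FS.1 hq
    obtain ⟨h5, h6, h7⟩ := mem_FS.1 hmem
    refine sig_inj hs hu ht hA h2 hρ hI h1 h5 (fun r hr => ?_) ?_
    · rw [h4 r hr, h7 r hr]
    · rw [(at7 hA.1 hρ h1).2.1 h3, (at7 hA.1 hρ h5).2.1 h6]
  · rintro rfl
    exact hmem

lemma card_even {I : Finset ℕ} (hIS : I ⊆ sp A) (hI1 : ∀ i ∈ sp A, sg A I i = 1)
    (hI0 : I ≠ ∅) : Even (FS ρ A).card := by
  classical
  have hIA : I ⊆ A := hIS.trans (sp_sub A)
  have hinnI : inn I = ∅ := by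
    rw [Finset.eq_empty_iff_forall_notMem]
    intro p hp
    exact (mem_inn.1 hp).2 (mem_sp.1 (hIS (mem_inn.1 hp).1)).2
  have hinnC : inn (A \ I) = inn A := by
    ext p
    rw [mem_inn, mem_inn, Finset.mem_sdiff]
    constructor
    · exact fun h => ⟨h.1.1, h.2⟩
    · intro h
      exact ⟨⟨h.1, fun h' => h.2 (mem_sp.1 (hIS h')).2⟩, h.2⟩
  have hCne : A \ I ≠ ∅ := by
    intro h
    rw [h] at hinnC
    have : (inn A).card = 0 := by
      rw [← hinnC]
      simp [inn]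
    omega
  -- two remaining representations related by a flip are determined by one another
  have huq : ∀ s ∈ FS ρ A, ∀ s' ∈ FS ρ A, ∀ s'' ∈ FS ρ A,
      (Fl A s s' = I ∨ Fl A s s' = A \ I) → (Fl A s s'' = I ∨ Fl A s s'' = A \ I) →
        s' = s'' := by
    intro s h s' h' s'' h'' e1 e2
    obtain ⟨k1, k2, -⟩ := mem_FS.1 h
    obtain ⟨k3, k4, -⟩ := mem_FS.1 h'
    obtain ⟨k5, k6, -⟩ := mem_FS.1 h''
    have hcon : Fl A s s'' = A \ Fl A s s' → False := by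
      intro he
      have h1 := compl hs hA ht k1 k3 k5 he
      rw [jacobiSym.mul_left, (at7 hA.1 hρ k3).2.1 k4, (at7 hA.1 hρ k5).2.1 k6] at h1
      rcases rho_pm hA.1 hρ with e | e <;> rw [e] at h1 <;> norm_num at h1
    rcases e1 with e1 | e1 <;> rcases e2 with e2 | e2
    · exact uniq hs hA hu k1 k3 k5 (by rw [e1, e2])
    · exact (hcon (by rw [e1, e2])).elim
    · exact (hcon (by rw [e1, e2, Finset.sdiff_sdiff_eq_self hIA])).elim
    · exact uniq hs hA hu k1 k3 k5 (by rw [e1, e2])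
  have hex : ∀ s ∈ FS ρ A, ∃ s' ∈ FS ρ A, Fl A s s' = I ∨ Fl A s s' = A \ I := by
    intro s h
    obtain ⟨k1, k2, k3⟩ := mem_FS.1 h
    obtain ⟨s1, hs1, e1⟩ := flip hs hA hf k1 hIA (by rw [hinnI]; simp)
    obtain ⟨s2, hs2, e2⟩ := flip hs hA hf k1 (Finset.sdiff_subset (s := A) (t := I))
      (by rw [hinnC, h2]; exact even_two)
    have h7 := compl hs hA ht k1 hs1 hs2 (by rw [e1, e2])
    rw [jacobiSym.mul_left] at h7
    have g1 : ∀ p ∈ sp A, jacobiSym s1.2 p = 1 := by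
      intro p hp
      rw [← k3 p hp]
      exact ((sg_one hs hA k1 hs1 hp).1 (by rw [e1]; exact hI1 p hp)).symm
    have g2 : ∀ p ∈ sp A, jacobiSym s2.2 p = 1 := by
      intro p hp
      rw [← k3 p hp]
      exact ((sg_one hs hA k1 hs2 hp).1
        (by rw [e2, sg_compl hIA (sp_sub A hp)]; exact hI1 p hp)).symm
    have hor : jacobiSym s1.1 7 = quadraticChar (ZMod 7) ρ ∨
        jacobiSym s2.1 7 = quadraticChar (ZMod 7) ρ := by
      rcases (at7 hA.1 hρ hs1).1 with u | u <;> rcases (at7 hA.1 hρ hs2).1 with v | v <;>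
        rcases rho_pm hA.1 hρ with w | w <;> rw [u, v] at h7 <;> rw [u, v, w] <;>
        omega
    rcases hor with h8 | h8
    · exact ⟨s1, mem_FS.2 ⟨hs1, (at7 hA.1 hρ hs1).2.2 h8, g1⟩, Or.inl e1⟩
    · exact ⟨s2, mem_FS.2 ⟨hs2, (at7 hA.1 hρ hs2).2.2 h8, g2⟩, Or.inr e2⟩
  choose! φ hφ1 hφ2 using hex
  have hsum : ∑ q ∈ FS ρ A, (1 : ZMod 2) = 0 := by
    refine Finset.sum_involution (fun q _ => φ q) ?_ ?_ ?_ ?_
    · intro q _
      decide
    · intro q hq _ he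
      have he' : φ q = q := he
      have h3 := hφ2 q hq
      rw [he', fl_self hs hA (mem_FS.1 hq).1] at h3
      rcases h3 with h3 | h3
      · exact hI0 h3.symm
      · exact hCne h3.symm
    · intro q hq
      exact hφ1 q hq
    · intro q hq
      have h3 := hφ2 q hq
      rw [fl_symm] at h3
      exact huq (φ q) (hφ1 q hq) (φ (φ q)) (hφ1 _ (hφ1 q hq)) q hq (hφ2 _ (hφ1 q hq)) h3
  rw [Finset.sum_const, nsmul_one] at hsum
  exact (ZMod.natCast_eq_zero_iff_even).1 hsum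

end

theorem t_F2 (hs : S_SYM) (hu : S_UNI) (ht : S_TOT) (hp : S_PRO) (hf : S_FLIP) (hn : S_NE) :
    S_F2 := by
  intro A hCl hTy h2 ρ hρ
  have hA : MA 9 A := ⟨hCl, Or.inl ⟨rfl, hTy⟩⟩
  rw [fix_card hs hA h2 hp]
  by_cases hY : Odd (Yd lres (ei A) (sp A))
  · rw [card_one hs hu ht hf hA h2 hρ ((crit hCl).1 hY) (hn A hCl hTy h2)]
    exact ⟨fun _ => hY, fun _ => odd_one⟩
  · have h3 := hY
    rw [crit hCl] at h3
    push Not at h3
    obtain ⟨I, hI, h4, h5⟩ := h3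
    have h6 := card_even hs hu ht hf hA h2 hρ hI h4
      (by intro h; rw [h] at h5; simp at h5)
    exact ⟨fun h => absurd h6 (Nat.not_even_iff_odd.2 h), fun h => absurd h hY⟩

end Pool.Agent.Y474.Z17
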