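import Pool.Agent.Y17.G.Defs

/-!
Odd determinants of Laplacian plus diagonal in terms of subsets (the lemmas of
`Pool.Agent.Y931.Z700.Exi` and `Pool.Agent.Y657.Z.Fix5`, repeated to keep the imports small).
-/

set_option autoImplicit false

namespace Pool.Agent.Y474.Z17

open Finset Matrix
open Pool.Agent.Z700 (pr Yd lres)

/-- the equation at a point -/
def EqAt (l : ℕ → ℕ → ℤ) (x : ℕ → ℤ) (S : Finset ℕ) (v : ℕ → ZMod 2) (i : ℕ) : Prop :=
  ∑ k ∈ S.erase i, (l i k : ZMod 2) * (v i - v k) + (x i : ZMod 2) * v i = 0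

theorem odd_iff (l : ℕ → ℕ → ℤ) (x : ℕ → ℤ) (S : Finset ℕ) :
    Odd (Yd l x S) ↔ ∀ v : ℕ → ZMod 2, (∀ i ∈ S, EqAt l x S v i) → ∀ i ∈ S, v i = 0 := by
  classical
  set M : Matrix S S (ZMod 2) := (Matrix.of fun i j : S =>
    if i = j then (∑ k ∈ S.erase i.1, (l i k : ZMod 2)) + x i else -(l i j : ZMod 2)) with hM
  have h1 : ((Yd l x S : ℤ) : ZMod 2) = M.det := by
    show (Int.castRingHom (ZMod 2)) (Yd l x S) = M.det
    unfold Yd
    rw [RingHom.map_det]
    congr 1
    ext i j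
    rw [hM]
    simp only [RingHom.mapMatrix_apply, Matrix.map_apply, Matrix.of_apply, Int.coe_castRingHom]
    split_ifs <;> push_cast <;> rfl
  have h2 : Odd (Yd l x S) ↔ M.det ≠ 0 := by
    rw [← h1, Ne, ZMod.intCast_zmod_eq_zero_iff_dvd, ← Int.not_even_iff_odd, even_iff_two_dvd]
    norm_num
  have h3 : ∀ (v : ℕ → ZMod 2) (i : S), (M.mulVec fun j : S => v j) i =
      ∑ k ∈ S.erase i.1, (l i k : ZMod 2) * (v i - v k) + (x i : ZMod 2) * v i := by
    intro v i
    rw [Matrix.mulVec, dotProduct]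
    have h4 : ∀ j : S, M i j * v j = (fun j' : ℕ => if j' = (i : ℕ) then
        ((∑ k ∈ S.erase i.1, (l i k : ZMod 2)) + x i) * v i else -(l i j' : ZMod 2) * v j') j := by
      intro j
      rw [hM]
      simp only [Matrix.of_apply]
      by_cases hij : i = j
      · subst hij
        simp
      · have : (j : ℕ) ≠ (i : ℕ) := fun h => hij (Subtype.ext h.symm)
        rw [if_neg hij, if_neg this]
    rw [Finset.sum_congr rfl fun j _ => h4 j, Finset.sum_coe_sort S (fun j' : ℕ =>
      if j' = (i : ℕ) then ((∑ k ∈ S.erase i.1, (l i k : ZMod 2)) + x i) * v i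
        else -(l i j' : ZMod 2) * v j')]
    rw [← Finset.add_sum_erase S _ i.2, if_pos rfl]
    have h5 : ∑ j' ∈ S.erase (i : ℕ), (if j' = (i : ℕ) then
        ((∑ k ∈ S.erase i.1, (l i k : ZMod 2)) + x i) * v i else -(l i j' : ZMod 2) * v j') =
        ∑ j' ∈ S.erase (i : ℕ), -(l i j' : ZMod 2) * v j' :=
      Finset.sum_congr rfl fun j' hj' => by rw [if_neg (Finset.ne_of_mem_erase hj')]
    rw [h5]
    simp only [mul_sub, Finset.sum_sub_distrib, neg_mul, Finset.sum_neg_distrib]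
    rw [← Finset.sum_mul]
    ring
  rw [h2, Ne, ← Matrix.exists_mulVec_eq_zero_iff, not_exists]
  constructor
  · intro h v hv i hi
    by_contra hne
    refine h (fun j : S => v j) ⟨fun h0 => hne (congrFun h0 ⟨i, hi⟩), ?_⟩
    funext j
    rw [h3]
    exact hv j j.2
  · rintro h w ⟨hw0, hw⟩
    apply hw0
    funext i
    have h6 : ∀ j : S, (fun k : ℕ => if hk : k ∈ S then w ⟨k, hk⟩ else 0) j = w j := by
      intro j
      simp
    have h7 := h (fun k : ℕ => if hk : k ∈ S then w ⟨k, hk⟩ else 0) ?_ i i.2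
    · exact (h6 i).symm.trans h7
    · intro j hj
      have h8 := h3 (fun k : ℕ => if hk : k ∈ S then w ⟨k, hk⟩ else 0) ⟨j, hj⟩
      have h9 : (fun k : S => (fun k : ℕ => if hk : k ∈ S then w ⟨k, hk⟩ else 0) k) = w :=
        funext h6
      rw [h9, hw] at h8
      exact h8.symm

/-- odd determinants in terms of subsets -/
lemma odd_sub (l : ℕ → ℕ → ℤ) (x : ℕ → ℤ) (S : Finset ℕ) :
    Odd (Yd l x S) ↔ ∀ I ⊆ S, (∀ i ∈ I, Even ((∑ k ∈ S \ I, l i k) + x i)) →
      (∀ i ∈ S \ I, Even (∑ k ∈ I, l i k)) → I = ∅ := by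
  classical
  have cast0 : ∀ n : ℤ, (n : ZMod 2) = 0 ↔ Even n := by
    intro n
    rw [ZMod.intCast_zmod_eq_zero_iff_dvd, even_iff_two_dvd]
    norm_num
  have hin : ∀ (I : Finset ℕ) (v : ℕ → ZMod 2), I ⊆ S →
      (∀ k ∈ S, v k = if k ∈ I then 1 else 0) → ∀ i ∈ I,
      (EqAt l x S v i ↔ Even ((∑ k ∈ S \ I, l i k) + x i)) := by
    intro I v hI hv i hi
    rw [← cast0, EqAt, hv i (hI hi), if_pos hi, mul_one]
    have : ∑ k ∈ S.erase i, (l i k : ZMod 2) * (1 - v k) = ∑ k ∈ S \ I, (l i k : ZMod 2) := by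
      have h1 : S \ I ⊆ S.erase i := by
        intro k hk
        rw [Finset.mem_sdiff] at hk
        rw [Finset.mem_erase]
        exact ⟨fun h => hk.2 (h ▸ hi), hk.1⟩
      rw [← Finset.sum_subset h1]
      · refine Finset.sum_congr rfl fun k hk => ?_
        rw [Finset.mem_sdiff] at hk
        rw [hv k hk.1, if_neg hk.2]
        ring
      · intro k hk hk'
        have hkS := Finset.mem_of_mem_erase hk
        have hkI : k ∈ I := by
          by_contra h
          exact hk' (Finset.mem_sdiff.2 ⟨hkS, h⟩)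
        rw [hv k hkS, if_pos hkI]
        ring
    rw [this]
    push_cast
    rfl
  have hout : ∀ (I : Finset ℕ) (v : ℕ → ZMod 2), I ⊆ S →
      (∀ k ∈ S, v k = if k ∈ I then 1 else 0) → ∀ i ∈ S \ I,
      (EqAt l x S v i ↔ Even (∑ k ∈ I, l i k)) := by
    intro I v hI hv i hi
    rw [Finset.mem_sdiff] at hi
    rw [← cast0, EqAt, hv i hi.1, if_neg hi.2, mul_zero, add_zero]
    have : ∑ k ∈ S.erase i, (l i k : ZMod 2) * (0 - v k) = -∑ k ∈ I, (l i k : ZMod 2) := by
      have h1 : I ⊆ S.erase i := by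
        intro k hk
        rw [Finset.mem_erase]
        exact ⟨fun h => hi.2 (h ▸ hk), hI hk⟩
      rw [← Finset.sum_subset h1, ← Finset.sum_neg_distrib]
      · refine Finset.sum_congr rfl fun k hk => ?_
        rw [hv k (hI hk), if_pos hk]
        ring
      · intro k hk hk'
        rw [hv k (Finset.mem_of_mem_erase hk), if_neg hk']
        ring
    rw [this, neg_eq_zero]
    push_cast
    rfl
  rw [odd_iff]
  constructor
  · intro h I hI h1 h2
    by_contra hne
    obtain ⟨i, hi⟩ := Finset.nonempty_iff_ne_empty.2 hne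
    have hv : ∀ k ∈ S, (fun k => if k ∈ I then (1 : ZMod 2) else 0) k = if k ∈ I then 1 else 0 :=
      fun k _ => rfl
    have h3 := h (fun k => if k ∈ I then (1 : ZMod 2) else 0) (by
      intro k hk
      by_cases hkI : k ∈ I
      · exact (hin I _ hI hv k hkI).2 (h1 k hkI)
      · exact (hout I _ hI hv k (Finset.mem_sdiff.2 ⟨hk, hkI⟩)).2
          (h2 k (Finset.mem_sdiff.2 ⟨hk, hkI⟩))) i (hI hi)
    simp only [if_pos hi] at h3
    exact one_ne_zero h3
  · intro h v hv
    have hdich : ∀ z : ZMod 2, z = 0 ∨ z = 1 := by decide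
    set I := S.filter fun k => v k = 1 with hI
    have hIS : I ⊆ S := Finset.filter_subset _ _
    have hvI : ∀ k ∈ S, v k = if k ∈ I then 1 else 0 := by
      intro k hk
      split_ifs with hkI
      · exact (Finset.mem_filter.1 hkI).2
      · rcases hdich (v k) with h0 | h0
        · exact h0
        · exact absurd (Finset.mem_filter.2 ⟨hk, h0⟩) hkI
    have h0 := h I hIS (fun i hi => (hin I v hIS hvI i hi).1 (hv i (hIS hi)))
      (fun i hi => (hout I v hIS hvI i hi).1 (hv i (Finset.mem_sdiff.1 hi).1))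
    intro i hi
    rw [hvI i hi, h0]
    simp

end Pool.Agent.Y474.Z17
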